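import Pool.Agent.helper75.LC.Spec

set_option autoImplicit false

namespace Pool.Agent.LC

open MX MG

open scoped MatrixGroups

section

variable {H V : Type} [Group H] [AddCommGroup V] [DistribMulAction H V]

lemma QTB_pow (y : H) (m : ℕ) (u : V) : y ^ m • u - u ∈ cmm H V y := by
  induction m with
  | zero => rw [pow_zero, one_smul, sub_self]; exact (cmm H V y).zero_mem
  | succ m ih =>
    have h1 : y ^ (m + 1) • u - u = (y • (y ^ m • u) - y ^ m • u) + (y ^ m • u - u) := by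
      rw [pow_succ', mul_smul]; abel
    rw [h1]
    exact (cmm H V y).add_mem ⟨y ^ m • u, rfl⟩ ih

lemma QTB_one {b : H → V} (hb : b ∈ Der H V) : b 1 = 0 := by
  have h := hb 1 1
  rw [mul_one, one_smul] at h
  have h2 : b 1 + 0 = b 1 + b 1 := by rw [add_zero]; exact h
  exact (add_left_cancel h2).symm

lemma QTB_inv {b : H → V} (hb : b ∈ Der H V) (a : H) : a • b a⁻¹ = - b a := by
  have h := hb a a⁻¹
  rw [mul_inv_cancel, QTB_one hb] at h
  exact (neg_eq_of_add_eq_zero_right h.symm).symm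

lemma QTB_conj {b : H → V} (hb : b ∈ Der H V) (a g : H) :
    b (a * g * a⁻¹) = a • b g - ((a * g * a⁻¹) • b a - b a) := by
  have h1 := hb (a * g) a⁻¹
  have h2 := hb a g
  have h3 : (a * g) • b a⁻¹ = - ((a * g * a⁻¹) • b a) := by
    rw [mul_smul (a * g) a⁻¹ (b a)]
    have h4 : b a⁻¹ = - (a⁻¹ • b a) := by
      have := QTB_inv hb a⁻¹
      rw [inv_inv] at this
      rw [this, neg_neg]
    rw [h4, smul_neg]
  rw [h1, h2, h3]
  abel

lemma QTB_dpow {b : H → V} (hb : b ∈ Der H V) (h : H) (m : ℕ) : b (h ^ m) - m • b h ∈ cmm H V h := by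
  induction m with
  | zero => rw [pow_zero, QTB_one hb, zero_smul, sub_zero]; exact (cmm H V h).zero_mem
  | succ m ih =>
    have h1 : b (h ^ (m + 1)) - (m + 1) • b h = (b (h ^ m) - m • b h) + (h ^ m • b h - b h) := by
      rw [pow_succ, hb (h ^ m) h, succ_nsmul]; abel
    rw [h1]
    exact (cmm H V h).add_mem ih (QTB_pow h m _)

end

lemma QTB_cmm {H Hq V : Type} [Group H] [Group Hq] [AddCommGroup V] [DistribMulAction H V]
    [DistribMulAction Hq V] (q : H →* Hq) (hq : ∀ (h : H) (v : V), h • v = q h • v) (h : H) (v : V) :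
    v ∈ cmm H V h ↔ v ∈ cmm Hq V (q h) := by
  constructor
  · rintro ⟨u, hu⟩
    exact ⟨u, by rw [hu, hq h u]⟩
  · rintro ⟨u, hu⟩
    exact ⟨u, by rw [hu, hq h u]⟩

/-- the conjugating element maps `[V, y]` into itself -/
lemma QTB_stab {A V : Type} [Group A] [AddCommGroup V] [DistribMulAction A V] [Finite V] (y c : A) (m : ℕ)
    (h : y = c * y ^ m * c⁻¹) (w : V) (hw : w ∈ cmm A V y) : c • w ∈ cmm A V y := by
  set φ : V ≃+ V := DistribMulAction.toAddEquiv V c with hφ
  have hle : cmm A V y ≤ (cmm A V y).map (φ : V →+ V) := by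
    rintro x ⟨u, hu⟩
    refine ⟨y ^ m • (c⁻¹ • u) - c⁻¹ • u, QTB_pow y m _, ?_⟩
    change c • (y ^ m • (c⁻¹ • u) - c⁻¹ • u) = x
    have h1 : y • u = c • y ^ m • c⁻¹ • u := by
      conv_lhs => rw [h]
      rw [mul_smul, mul_smul]
    rw [smul_sub, smul_inv_smul, hu, h1]
  have hcard : Nat.card ((cmm A V y).map (φ : V →+ V)) ≤ Nat.card (cmm A V y) := by
    refine le_of_eq ?_
    exact (Nat.card_congr ((cmm A V y).equivMapOfInjective (φ : V →+ V) φ.injective).toEquiv).symm
  have heq : cmm A V y = (cmm A V y).map (φ : V →+ V) := AddSubgroup.eq_of_le_of_card_ge hle hcard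
  rw [heq]
  exact ⟨w, hw, rfl⟩

theorem QTB : QTB_stmt := by
  classical
  intro H Hq V _ _ _ _ _ _ _ p _ q hqs hq hirr b hb hsur hker n hbig
  obtain ⟨f, hf1, hf2, hf3⟩ := hbig
  have : Finite (EndH H V) := by
    have h1 : Finite (V →+ V) := Finite.of_injective (fun g : V →+ V => (g : V → V)) DFunLike.coe_injective
    exact Subtype.finite
  -- the lifts
  have hch : ∀ x : EndH H V × Fin n, ∃ h : H, q h = (f x.2).2 ∧ b h = x.1.1 (f x.2).1 ∧
      ∃ k : ℕ, h ^ (p ^ k) = 1 := by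
    intro x
    obtain ⟨h0, hh0⟩ := hqs (f x.2).2
    obtain ⟨k, hk, hbk⟩ := hsur (x.1.1 (f x.2).1 - b h0)
    have hqk : q k = 1 := hk
    refine ⟨k * h0, by rw [map_mul, hqk, one_mul, hh0], ?_, ?_⟩
    · rw [hb k h0, hbk, hq k (b h0), hqk, one_smul, sub_add_cancel]
    · obtain ⟨j, hj⟩ := hf2 x.2
      have h1 : (k * h0) ^ (p ^ j) ∈ q.ker := by
        rw [MonoidHom.mem_ker, map_pow, map_mul, hqk, one_mul, hh0, hj]
      obtain ⟨i, hi⟩ := hker _ h1
      exact ⟨j + i, by rw [pow_add, pow_mul, hi]⟩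
  choose g hg1 hg2 hg3 using hch
  let F : EndH H V × Fin n → V × H := fun x => ((f x.2).1, g x)
  have hF1 : ∀ x, (F x).1 ∉ cmm H V (F x).2 := by
    intro x hx
    rw [QTB_cmm q hq, show q (F x).2 = (f x.2).2 from hg1 x] at hx
    exact hf1 x.2 hx
  have hF3 : ∀ x x', RelP p (F x) (F x') → x = x' := by
    rintro ⟨e, i⟩ ⟨e', i'⟩ ⟨a, m, hm, hc, hv⟩
    change g (e', i') = a * g (e, i) ^ m * a⁻¹ at hc
    change (f i').1 - m • (a • (f i).1) ∈ cmm H V (g (e', i')) at hv
    have hqc : (f i').2 = q a * (f i).2 ^ m * (q a)⁻¹ := by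
      have := congrArg q hc
      rw [map_mul, map_mul, map_pow, map_inv, hg1, hg1] at this
      exact this
    rw [QTB_cmm q hq, hg1, hq a] at hv
    have hii : i = i' := hf3 i i' ⟨q a, m, hm, hqc, hv⟩
    subst hii
    -- notation
    have hvC : (f i).1 - m • (q a • (f i).1) ∈ cmm Hq V (f i).2 := hv
    have hstab : ∀ w ∈ cmm Hq V (f i).2, q a • w ∈ cmm Hq V (f i).2 := fun w hw =>
      QTB_stab (f i).2 (q a) m hqc w hw
    have hend : ∀ (e : EndH H V) (w : V), w ∈ cmm Hq V (f i).2 → e.1 w ∈ cmm Hq V (f i).2 := by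
      rintro e0 w ⟨u, hu⟩
      refine ⟨e0.1 u, ?_⟩
      rw [← hg1 (e, i), ← hq, hu, ← hg1 (e, i), ← hq, map_sub, e0.2]
    -- first congruence
    have h1 : e'.1 (f i).1 - m • (q a • e.1 (f i).1) ∈ cmm Hq V (f i).2 := by
      have h2 : b (g (e', i)) = e'.1 (f i).1 := hg2 (e', i)
      have h3 : b (g (e, i)) = e.1 (f i).1 := hg2 (e, i)
      have h4 : b (g (e', i)) = a • b (g (e, i) ^ m) -
          ((a * g (e, i) ^ m * a⁻¹) • b a - b a) := by
        rw [hc]; exact QTB_conj hb a _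
      have h5 := QTB_dpow hb (g (e, i)) m
      rw [QTB_cmm q hq, hg1, h3] at h5
      have h6 := hstab _ h5
      have h7 : (a * g (e, i) ^ m * a⁻¹) • b a - b a ∈ cmm Hq V (f i).2 := by
        rw [← hc, hq, hg1]
        exact ⟨b a, rfl⟩
      have h8 : e'.1 (f i).1 - m • (q a • e.1 (f i).1) =
          q a • (b (g (e, i) ^ m) - m • e.1 (f i).1) - ((a * g (e, i) ^ m * a⁻¹) • b a - b a) := by
        rw [← h2, h4, hq a (b (g (e, i) ^ m)), smul_sub, smul_comm (q a) m (e.1 (f i).1)]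
        abel
      rw [h8]
      exact (cmm Hq V (f i).2).sub_mem h6 h7
    have h9 : e.1 (f i).1 - m • (q a • e.1 (f i).1) ∈ cmm Hq V (f i).2 := by
      have := hend e _ hvC
      rw [map_sub, map_nsmul, ← hq, e.2] at this
      rw [← hq]
      exact this
    have h10 : e'.1 (f i).1 - e.1 (f i).1 ∈ cmm Hq V (f i).2 := by
      have := (cmm Hq V (f i).2).sub_mem h1 h9
      rw [sub_sub_sub_cancel_right] at this
      exact this
    by_contra hne
    have hne' : e'.1 - e.1 ≠ 0 := by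
      intro h0
      apply hne
      have : e' = e := Subtype.ext (sub_eq_zero.mp h0)
      rw [this]
    have hcom : ∀ (h : H) (v : V), (e'.1 - e.1) (h • v) = h • (e'.1 - e.1) v := by
      intro h v
      rw [AddMonoidHom.sub_apply, AddMonoidHom.sub_apply, e'.2, e.2, smul_sub]
    have hinj : Function.Injective (e'.1 - e.1) := by
      rw [← AddMonoidHom.ker_eq_bot_iff]
      rcases hirr.2 (e'.1 - e.1).ker (fun h v hv => by
        rw [AddMonoidHom.mem_ker] at hv ⊢
        rw [hcom, hv, smul_zero]) with h0 | h0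
      · exact h0
      · exfalso
        apply hne'
        ext v
        have : v ∈ (e'.1 - e.1).ker := by rw [h0]; exact AddSubgroup.mem_top v
        exact this
    have hmap : ∀ w ∈ cmm Hq V (f i).2, (e'.1 - e.1) w ∈ cmm Hq V (f i).2 := fun w hw => by
      rw [AddMonoidHom.sub_apply]
      exact (cmm Hq V (f i).2).sub_mem (hend e' w hw) (hend e w hw)
    have hsurj : Function.Surjective (fun w : cmm Hq V (f i).2 =>
        (⟨(e'.1 - e.1) w.1, hmap w.1 w.2⟩ : cmm Hq V (f i).2)) := by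
      apply Finite.injective_iff_surjective.mp
      intro w w' hww
      exact Subtype.ext (hinj (congrArg Subtype.val hww))
    obtain ⟨w, hw⟩ := hsurj ⟨(e'.1 - e.1) (f i).1, by rw [AddMonoidHom.sub_apply]; exact h10⟩
    have hwv : w.1 = (f i).1 := hinj (congrArg Subtype.val hw)
    exact hf1 i (hwv ▸ w.2)
  let eqv : EndH H V × Fin n ≃ Fin (Nat.card (EndH H V) * n) :=
    ((Finite.equivFin (EndH H V)).prodCongr (Equiv.refl _)).trans finProdFinEquiv
  refine ⟨fun j => F (eqv.symm j), fun j => hF1 _, fun j => hg3 _, fun j j' hjj => ?_⟩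
  exact eqv.symm.injective (hF3 _ _ hjj)

end Pool.Agent.LC
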